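import Mathlib
import Pool.Agent.Helper94.GSpComp

/-!
# MP_3e7cbe_nt: vectors fixed by the groups `R(n)`, for all smooth representations

The representations are honest representations of the topological group `GSp_{2m}(ℚ_p)`, a
subgroup of `GL_{2m}(ℚ_p)`; smooth means that every vector is fixed by an open subgroup.

For EVERY smooth representation (irreducible or not, admissible or not) there is a nonzero
vector fixed by some `R(n)`, `n ≥ 1`, if and only if `Sp_{2m}(ℚ_p)` acts non-trivially or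
`GSp_{2m}(ℤ_p)` has a nonzero fixed vector.  In particular every irreducible admissible
infinite-dimensional representation has a nonzero vector fixed by some `R(n)`.
-/

set_option autoImplicit false

namespace Pool.Agent.Results.MP_3e7cbe_nt.SmoothFixedVectors

open Matrix Pool.Agent.Helper94.GSpLemmaB Pool.Agent.Helper94.GSpLemmaC
  Pool.Agent.Helper94.GSpMain Pool.Agent.Helper94.GSpComp

section defs

variable (p : ℕ) [Fact p.Prime] (m : ℕ)

/-- The similitude relation `gᵀ J g = c J`.  Mathlib's `J` is `(0, -1; 1, 0)`, the negative of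
the `J` of the problem; the relation is the same for both. -/
def Multiplier (c : ℚ_[p]) (g : Matrix (Fin m ⊕ Fin m) (Fin m ⊕ Fin m) ℚ_[p]) : Prop :=
  c ≠ 0 ∧ gᵀ * J (Fin m) ℚ_[p] * g = c • J (Fin m) ℚ_[p]

/-- The group `GSp_{2m}(ℚ_p)`, as a subgroup of `GL_{2m}(ℚ_p)`. -/
def GSp : Subgroup (GL (Fin m ⊕ Fin m) ℚ_[p]) where
  carrier := {g | ∃ c : ℚ_[p], Multiplier p m c g.val}
  mul_mem' := by
    rintro a b ⟨c, hc⟩ ⟨d, hd⟩
    exact ⟨c * d, sim_mul hc hd⟩
  one_mem' := ⟨1, sim_one⟩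
  inv_mem' := by
    rintro a ⟨c, hc⟩
    refine ⟨c⁻¹, inv_ne_zero hc.1, ?_⟩
    have h1 : a.val * a⁻¹.val = 1 := a.mul_inv
    have h2 : (a⁻¹.val)ᵀ * (a.val)ᵀ = 1 := by rw [← transpose_mul, h1, transpose_one]
    have h3 : (a⁻¹.val)ᵀ * ((a.val)ᵀ * J (Fin m) ℚ_[p] * a.val) * a⁻¹.val
        = J (Fin m) ℚ_[p] := by
      calc (a⁻¹.val)ᵀ * ((a.val)ᵀ * J (Fin m) ℚ_[p] * a.val) * a⁻¹.val
          = ((a⁻¹.val)ᵀ * (a.val)ᵀ) * J (Fin m) ℚ_[p] * (a.val * a⁻¹.val) := by
            simp only [Matrix.mul_assoc]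
        _ = _ := by rw [h1, h2, Matrix.one_mul, Matrix.mul_one]
    rw [hc.2, Matrix.mul_smul, Matrix.smul_mul] at h3
    rw [← h3, smul_smul, inv_mul_cancel₀ hc.1, one_smul, h3]

/-- The matrix of an element of `GSp_{2m}(ℚ_p)`. -/
def mat (g : GSp p m) : Matrix (Fin m ⊕ Fin m) (Fin m ⊕ Fin m) ℚ_[p] := g.val.val

/-- The subgroup `GSp_{2m}(ℤ_p)`: integral entries and a unit as multiplier. -/
def Integral (g : GSp p m) : Prop :=
  (∀ i j, ‖mat p m g i j‖ ≤ 1) ∧ ∃ c : ℚ_[p], ‖c‖ = 1 ∧ Multiplier p m c (mat p m g)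

/-- The group `R(n)`: elements of `GSp_{2m}(ℤ_p)` that are congruent to
`diag(1, ..., 1, a, ..., a)` modulo `p ^ n` for a unit `a`. -/
def R (n : ℕ) : Set (GSp p m) :=
  {g | Integral p m g ∧ ∃ a : ℚ_[p], ‖a‖ = 1 ∧ ∀ i j,
    ‖(mat p m g - Matrix.diagonal
      (Sum.elim (fun _ : Fin m => (1 : ℚ_[p])) (fun _ : Fin m => a))) i j‖
        ≤ (p : ℝ) ^ (-(n : ℤ))}

variable {V : Type*} [AddCommGroup V] [Module ℂ V] (ρ : Representation ℂ (GSp p m) V)

/-- Smooth: every vector is fixed by an open subgroup. -/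
def Smooth : Prop :=
  ∀ v : V, ∃ U : Subgroup (GSp p m), IsOpen (U : Set (GSp p m)) ∧ ∀ g ∈ U, ρ g v = v

/-- Admissible: smooth, and for every open subgroup the space of fixed vectors is
finite-dimensional. -/
def Admissible : Prop :=
  Smooth p m ρ ∧ ∀ U : Subgroup (GSp p m), IsOpen (U : Set (GSp p m)) →
    ∃ s : Finset V, ∀ v : V, (∀ g ∈ U, ρ g v = v) → v ∈ Submodule.span ℂ (s : Set V)

/-- Irreducible: nonzero, without invariant subspaces. -/
def Irreducible : Prop :=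
  Nontrivial V ∧ ∀ W : Submodule ℂ V, (∀ g : GSp p m, ∀ w ∈ W, ρ g w ∈ W) → W = ⊥ ∨ W = ⊤

/-- A nonzero vector is fixed by `R(n)` for some `n ≥ 1`. -/
def HasFixed : Prop :=
  ∃ n : ℕ, 1 ≤ n ∧ ∃ v : V, v ≠ 0 ∧ ∀ g ∈ R p m n, ρ g v = v

end defs

section lemmas

variable {p : ℕ} [hp : Fact p.Prime] {m : ℕ}

theorem mat_injective : Function.Injective (mat p m) := by
  intro a b h
  exact Subtype.ext (Units.ext h)

theorem exists_gsp (c : ℚ_[p]) (M : Matrix (Fin m ⊕ Fin m) (Fin m ⊕ Fin m) ℚ_[p])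
    (h : Sim c M) : ∃ g : GSp p m, mat p m g = M := by
  have h1 : (c⁻¹ • (-(J (Fin m) ℚ_[p]) * Mᵀ * J (Fin m) ℚ_[p])) * M = 1 := by
    rw [Matrix.smul_mul, Matrix.mul_assoc (-(J (Fin m) ℚ_[p]) * Mᵀ),
      Matrix.mul_assoc (-(J (Fin m) ℚ_[p])), ← Matrix.mul_assoc Mᵀ, h.2, Matrix.mul_smul,
      smul_smul, inv_mul_cancel₀ h.1, one_smul, Matrix.neg_mul, J_squared, neg_neg]
  have h2 := mul_eq_one_comm.1 h1
  exact ⟨⟨⟨M, _, h2, h1⟩, ⟨c, h⟩⟩, rfl⟩

theorem exists_sim (g : GSp p m) : ∃ c : ℚ_[p], Sim c (mat p m g) := g.2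

variable {V : Type*} [AddCommGroup V] [Module ℂ V] (ρ : Representation ℂ (GSp p m) V)

/-- The extension by zero of a representation to all matrices. -/
noncomputable def ext (M : Matrix (Fin m ⊕ Fin m) (Fin m ⊕ Fin m) ℚ_[p]) : V →ₗ[ℂ] V :=
  open Classical in
  if h : ∃ g : GSp p m, mat p m g = M then ρ h.choose else 0

theorem ext_mat (g : GSp p m) : ext ρ (mat p m g) = ρ g := by
  unfold ext
  have h : ∃ g' : GSp p m, mat p m g' = mat p m g := ⟨g, rfl⟩
  rw [dif_pos h, mat_injective h.choose_spec]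

theorem ext_isRep : IsRep (ext ρ) := by
  constructor
  · have : mat p m 1 = 1 := rfl
    rw [← this, ext_mat, map_one]
    rfl
  · intro c d g h hg hh
    obtain ⟨g, rfl⟩ := exists_gsp c g hg
    obtain ⟨h, rfl⟩ := exists_gsp d h hh
    have : mat p m g * mat p m h = mat p m (g * h) := rfl
    rw [this, ext_mat, ext_mat, ext_mat, map_mul]
    rfl

theorem tendsto_one (G : ℕ → GSp p m) (hG : ∀ k, Close k (mat p m (G k))) :
    Filter.Tendsto G Filter.atTop (nhds 1) := by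
  have hp1 : (1 : ℝ) < p := by exact_mod_cast hp.out.one_lt
  have h1 : Filter.Tendsto (fun k => mat p m (G k)) Filter.atTop (nhds 1) := by
    refine tendsto_pi_nhds.2 fun i => tendsto_pi_nhds.2 fun j => ?_
    rw [tendsto_iff_norm_sub_tendsto_zero]
    have h2 : Filter.Tendsto (fun k : ℕ => (p : ℝ)⁻¹ ^ k) Filter.atTop (nhds 0) :=
      tendsto_pow_atTop_nhds_zero_of_lt_one (by positivity) (inv_lt_one_of_one_lt₀ hp1)
    refine squeeze_zero (fun _ => norm_nonneg _) (fun k => ?_) h2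
    have h3 := hG k i j
    rw [Matrix.sub_apply] at h3
    rw [inv_pow, ← zpow_natCast, ← _root_.zpow_neg]
    exact h3
  have h2 : Filter.Tendsto (fun k => (mat p m (G k))⁻¹) Filter.atTop (nhds 1) := by
    have h3 : Filter.Tendsto (fun k => (mat p m (G k)).det) Filter.atTop (nhds 1) := by
      have := ((continuous_id.matrix_det).tendsto
        (1 : Matrix (Fin m ⊕ Fin m) (Fin m ⊕ Fin m) ℚ_[p])).comp h1
      simpa [Function.comp_def] using this
    have h4 : Filter.Tendsto (fun k => (mat p m (G k)).adjugate) Filter.atTop (nhds 1) := by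
      have := ((continuous_id.matrix_adjugate).tendsto
        (1 : Matrix (Fin m ⊕ Fin m) (Fin m ⊕ Fin m) ℚ_[p])).comp h1
      simpa [Function.comp_def] using this
    have h5 := (h3.inv₀ one_ne_zero).smul h4
    rw [inv_one, one_smul] at h5
    refine h5.congr fun k => ?_
    rw [Matrix.inv_def, Ring.inverse_eq_inv']
  rw [Topology.IsInducing.subtypeVal.tendsto_nhds_iff]
  rw [Units.isEmbedding_embedProduct.tendsto_nhds_iff]
  have h6 : Filter.Tendsto (fun k => (mat p m (G k), MulOpposite.op (mat p m (G k))⁻¹))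
      Filter.atTop (nhds ((1 : Matrix (Fin m ⊕ Fin m) (Fin m ⊕ Fin m) ℚ_[p]),
        MulOpposite.op (1 : Matrix (Fin m ⊕ Fin m) (Fin m ⊕ Fin m) ℚ_[p]))) :=
    h1.prodMk_nhds ((MulOpposite.continuous_op.tendsto _).comp h2)
  have h7 : (Units.embedProduct (Matrix (Fin m ⊕ Fin m) (Fin m ⊕ Fin m) ℚ_[p]))
      ((1 : GSp p m) : GL (Fin m ⊕ Fin m) ℚ_[p])
      = ((1 : Matrix (Fin m ⊕ Fin m) (Fin m ⊕ Fin m) ℚ_[p]), MulOpposite.op 1) := by
    rw [OneMemClass.coe_one, map_one]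
    rfl
  rw [h7]
  refine h6.congr fun k => ?_
  simp only [Function.comp_apply, Units.embedProduct_apply, mat, Matrix.coe_units_inv]

theorem ext_smooth (hsm : Smooth p m ρ) :
    ∀ v : V, ∃ k : ℕ, ∀ g c, Sim c g → Close k g → ext ρ g v = v := by
  intro v
  obtain ⟨U, hU, hv⟩ := hsm v
  by_contra hcon
  push Not at hcon
  choose g c hsim hcl hne using hcon
  choose G hG using fun k => exists_gsp (c k) (g k) (hsim k)
  have h1 := tendsto_one G (fun k => by rw [hG]; exact hcl k)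
  have h2 : (U : Set (GSp p m)) ∈ nhds (1 : GSp p m) := hU.mem_nhds U.one_mem
  obtain ⟨k, hk⟩ := (h1.eventually h2).exists
  apply hne k
  rw [← hG k, ext_mat]
  exact hv _ hk

theorem close_mul {k : ℕ} {g h : Matrix (Fin m ⊕ Fin m) (Fin m ⊕ Fin m) ℚ_[p]}
    (hg : Close k g) (hh : Close k h) : Close k (g * h) := by
  have hp1 : (1 : ℝ) < p := by exact_mod_cast hp.out.one_lt
  have hε0 : (0 : ℝ) ≤ (p : ℝ) ^ (-(k : ℤ)) := by positivity
  have hε1 : (p : ℝ) ^ (-(k : ℤ)) ≤ 1 := by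
    rw [_root_.zpow_neg]
    apply inv_le_one_of_one_le₀
    exact one_le_zpow₀ hp1.le (by positivity)
  intro i j
  have h1 : g * h - 1 = (g - 1) * (h - 1) + ((g - 1) + (h - 1)) := by
    rw [Matrix.sub_mul, Matrix.mul_sub, Matrix.mul_one, Matrix.one_mul]
    abel
  rw [h1, Matrix.add_apply, Matrix.add_apply]
  refine (IsUltrametricDist.norm_add_le_max _ _).trans (max_le ?_ ?_)
  · rw [Matrix.mul_apply]
    refine IsUltrametricDist.norm_sum_le_of_forall_le_of_nonneg hε0 ?_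
    intro l _
    rw [norm_mul]
    calc ‖(g - 1) i l‖ * ‖(h - 1) l j‖ ≤ (p : ℝ) ^ (-(k : ℤ)) * 1 :=
          mul_le_mul (hg i l) ((hh l j).trans hε1) (norm_nonneg _) hε0
      _ = _ := mul_one _
  · exact (IsUltrametricDist.norm_add_le_max _ _).trans (max_le (hg i j) (hh i j))

/-- The principal congruence subgroup. -/
def KK (p m : ℕ) [Fact p.Prime] (k : ℕ) : Subgroup (GSp p m) where
  carrier := {g | Close k (mat p m g) ∧ Close k (mat p m g⁻¹)}
  mul_mem' := by
    rintro a b ⟨ha, ha'⟩ ⟨hb, hb'⟩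
    refine ⟨close_mul ha hb, ?_⟩
    rw [_root_.mul_inv_rev]
    exact close_mul hb' ha'
  one_mem' := by
    have h : Close (p := p) (m := m) k (mat p m 1) := by
      intro i j
      have : mat p m 1 = 1 := rfl
      rw [this, sub_self, Matrix.zero_apply, norm_zero]
      positivity
    exact ⟨h, by rw [inv_one]; exact h⟩
  inv_mem' := by
    rintro a ⟨ha, ha'⟩
    exact ⟨ha', by rw [inv_inv]; exact ha⟩

theorem isOpen_close (k : ℕ) :
    IsOpen {M : Matrix (Fin m ⊕ Fin m) (Fin m ⊕ Fin m) ℚ_[p] | Close k M} := by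
  have hp0 : (0 : ℝ) < p := by exact_mod_cast hp.out.pos
  have h : {M : Matrix (Fin m ⊕ Fin m) (Fin m ⊕ Fin m) ℚ_[p] | Close k M}
      = ⋂ i, ⋂ j, (fun M : Matrix (Fin m ⊕ Fin m) (Fin m ⊕ Fin m) ℚ_[p] => (M - 1) i j) ⁻¹'
        Metric.closedBall 0 ((p : ℝ) ^ (-(k : ℤ))) := by
    ext M
    simp only [Close, Set.mem_iInter, Set.mem_preimage, mem_closedBall_zero_iff]
    rfl
  rw [h]
  refine isOpen_iInter_of_finite fun i => isOpen_iInter_of_finite fun j => ?_
  refine IsOpen.preimage ?_ (IsUltrametricDist.isOpen_closedBall _ (by positivity))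
  have h1 : Continuous (fun M : Matrix (Fin m ⊕ Fin m) (Fin m ⊕ Fin m) ℚ_[p] => M - 1) :=
    continuous_id.sub continuous_const
  exact h1.matrix_elem i j

theorem isOpen_KK (k : ℕ) : IsOpen (KK p m k : Set (GSp p m)) := by
  have h1 : Continuous (mat p m) := Units.continuous_val.comp continuous_subtype_val
  have h2 : Continuous (fun g : GSp p m => mat p m g⁻¹) := h1.comp continuous_inv
  exact ((isOpen_close k).preimage h1).inter ((isOpen_close k).preimage h2)

theorem exists_fixed_of_level (n : ℕ) (v : V) (hv : v ≠ 0)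
    (h : ∀ g c, Sim c g →
      (∃ a : ℚ_[p], ‖a‖ = 1 ∧ ∀ i j,
          ‖(g - Matrix.diagonal (Sum.elim (fun _ : Fin m => (1 : ℚ_[p])) (fun _ : Fin m => a))) i j‖
            ≤ (p : ℝ) ^ (-(n : ℤ))) → ext ρ g v = v) : HasFixed p m ρ := by
  have hp1 : (1 : ℝ) < p := by exact_mod_cast hp.out.one_lt
  refine ⟨n + 1, by omega, v, hv, ?_⟩
  rintro g ⟨_, a, ha, hcl⟩
  obtain ⟨c, hc⟩ := exists_sim g
  rw [← ext_mat]
  refine h _ c hc ⟨a, ha, fun i j => (hcl i j).trans ?_⟩
  exact zpow_le_zpow_right₀ hp1.le (by push_cast; omega)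

end lemmas

/-- **Vectors fixed by `R(n)` in smooth representations of `GSp_{2m}(ℚ_p)`.** -/
theorem result (p : ℕ) [Fact p.Prime] (m : ℕ) (hm : 1 ≤ m) (V : Type*) [AddCommGroup V]
    [Module ℂ V] (ρ : Representation ℂ (GSp p m) V) (hsm : Smooth p m ρ) :
    (HasFixed p m ρ ↔
      (∃ g : GSp p m, Multiplier p m 1 (mat p m g) ∧ ρ g ≠ 1) ∨
      ∃ v : V, v ≠ 0 ∧ ∀ g : GSp p m, Integral p m g → ρ g v = v) ∧
    (Admissible p m ρ → Irreducible p m ρ → ¬ Module.Finite ℂ V → HasFixed p m ρ) := by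
  have hrep := ext_isRep ρ
  refine ⟨⟨?_, ?_⟩, ?_⟩
  · rintro ⟨n, hn, v, hv, hfix⟩
    by_contra hcon
    push Not at hcon
    obtain ⟨h1, h2⟩ := hcon
    obtain ⟨g, ⟨hg1, c, hc1, hc⟩, hg2⟩ := h2 v hv
    apply hg2
    obtain ⟨t, ht⟩ := exists_gsp c _ (sim_t (m := m) hc.1)
    have htd : mat p m t
        = Matrix.diagonal (Sum.elim (fun _ : Fin m => (1 : ℚ_[p])) (fun _ : Fin m => c)) := by
      rw [ht, ← fromBlocks_diagonal]
      congr 1
      rw [smul_one_eq_diagonal]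
    have htR : t ∈ R p m n := by
      refine ⟨⟨?_, c, hc1, ?_⟩, c, hc1, ?_⟩
      · intro i j
        rw [htd, Matrix.diagonal_apply]
        split_ifs with h
        · rcases i with i | i
          · simp
          · simp [hc1]
        · simp
      · rw [ht]; exact sim_t hc.1
      · intro i j
        rw [htd, sub_self, Matrix.zero_apply, norm_zero]
        positivity
    have h3 : Multiplier p m 1 (mat p m (t⁻¹ * g)) := by
      have h4 : Sim (c⁻¹ * c) (mat p m (t⁻¹ * g)) := by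
        have h5 : ∃ d, Sim d (mat p m t⁻¹) := exists_sim _
        have h6 : mat p m (t⁻¹ * g) = mat p m t⁻¹ * mat p m g := rfl
        have h7 : (fromBlocks 1 0 0 (c⁻¹ • 1) : Matrix (Fin m ⊕ Fin m) (Fin m ⊕ Fin m) ℚ_[p])
            = mat p m t⁻¹ := by
          have h8 : (fromBlocks 1 0 0 (c⁻¹ • 1) : Matrix (Fin m ⊕ Fin m) (Fin m ⊕ Fin m) ℚ_[p])
              * mat p m t = 1 := by
            rw [ht, fromBlocks_multiply, ← fromBlocks_one]
            congr 1 <;> simp [smul_smul, mul_inv_cancel₀ hc.1]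
          have h9 : mat p m t * mat p m t⁻¹ = 1 := by
            have : mat p m t * mat p m t⁻¹ = mat p m (t * t⁻¹) := rfl
            rw [this, mul_inv_cancel]
            rfl
          calc (fromBlocks 1 0 0 (c⁻¹ • 1) : Matrix (Fin m ⊕ Fin m) (Fin m ⊕ Fin m) ℚ_[p])
              = fromBlocks 1 0 0 (c⁻¹ • 1) * (mat p m t * mat p m t⁻¹) := by
                rw [h9, Matrix.mul_one]
            _ = mat p m t⁻¹ := by rw [← Matrix.mul_assoc, h8, Matrix.one_mul]
        rw [h6, ← h7]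
        exact sim_mul (sim_t (inv_ne_zero hc.1)) hc
      rw [inv_mul_cancel₀ hc.1] at h4
      exact h4
    have h4 : ρ (t⁻¹ * g) = 1 := h1 _ h3
    have h5 : g = t * (t⁻¹ * g) := by group
    rw [h5, map_mul, h4, mul_one]
    exact hfix t htR
  · rintro (⟨g, hg, hne⟩ | ⟨v, hv, hfix⟩)
    · obtain ⟨X₀, hX₀, hX₀ne⟩ : ∃ X : Matrix (Fin m) (Fin m) ℚ_[p], Xᵀ = X ∧
          ext ρ (fromBlocks 1 X 0 1) ≠ LinearMap.id := by
        by_contra hcon
        push Not at hcon
        apply hne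
        rw [← ext_mat, eq_of_trivial hrep hcon _ 1 hg, one_smul, fromBlocks_one, hrep.one]
        rfl
      obtain ⟨n, v, hv, h⟩ := exists_R hrep (ext_smooth ρ hsm) X₀ hX₀ hX₀ne
      exact exists_fixed_of_level ρ n v hv h
    · exact ⟨1, le_rfl, v, hv, fun g hg => hfix g hg.1⟩
  · rintro ⟨_, hadm⟩ ⟨hnt, hirr⟩ hinf
    obtain ⟨n, v, hv, h⟩ := Pool.Agent.Helper94.GSpMain.main hm hrep (ext_smooth ρ hsm)
      (by
        intro k
        obtain ⟨s, hs⟩ := hadm (KK p m k) (isOpen_KK k)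
        refine ⟨s, fun v hv => hs v fun g hg => ?_⟩
        obtain ⟨c, hc⟩ := exists_sim g
        rw [← ext_mat]
        exact hv _ c hc hg.1)
      hnt
      (by
        intro W hW
        apply hirr W
        intro g w hw
        obtain ⟨c, hc⟩ := exists_sim g
        rw [← ext_mat]
        exact hW _ c hc w hw)
      hinf
    exact exists_fixed_of_level ρ n v hv h

end Pool.Agent.Results.MP_3e7cbe_nt.SmoothFixedVectors
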